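import Pool.Agent.Helper1.SQ.Defs

/-!
# SQ-T: tables for the primes in `(16, 8192]`
-/

set_option autoImplicit false
open Finset

namespace Pool.Agent.Helper15.SQ

open Pool.Agent.Helper1.SQ

/-- sum over `(a, a + 2^k]` by binary splitting -/
def spS (f : ℕ → ℕ) : ℕ → ℕ → ℕ
  | 0, a => f (a + 1)
  | k + 1, a => spS f k a + spS f k (a + 2 ^ k)

/-- product over `(a, a + 2^k]` by binary splitting -/
def spP (f : ℕ → ℕ) : ℕ → ℕ → ℕ
  | 0, a => f (a + 1)
  | k + 1, a => spP f k a * spP f k (a + 2 ^ k)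

theorem spS_eq (f : ℕ → ℕ) (k : ℕ) : ∀ a, spS f k a = ∑ m ∈ Ioc a (a + 2 ^ k), f m := by
  induction k with
  | zero => intro a; simp [spS]
  | succ k ih =>
    intro a
    rw [spS, ih, ih, Finset.sum_Ioc_consecutive f (Nat.le_add_right a (2 ^ k))
      (Nat.le_add_right (a + 2 ^ k) (2 ^ k)), pow_succ, mul_two, ← add_assoc]

theorem spP_eq (f : ℕ → ℕ) (k : ℕ) : ∀ a, spP f k a = ∏ m ∈ Ioc a (a + 2 ^ k), f m := by
  induction k with
  | zero => intro a; simp [spP]
  | succ k ih =>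
    intro a
    rw [spP, ih, ih, Finset.prod_Ioc_consecutive f (Nat.le_add_right a (2 ^ k))
      (Nat.le_add_right (a + 2 ^ k) (2 ^ k)), pow_succ, mul_two, ← add_assoc]

def co (P m : ℕ) : Bool := Nat.beq (Nat.gcd m P) 1

def fS (P m : ℕ) : ℕ := bif co P m then 10 ^ 12 / m + 1 else 0
def fN (P m : ℕ) : ℕ := bif co P m then m else 1
def fD (P m : ℕ) : ℕ := bif co P m then m - 1 else 1
def fC (P m : ℕ) : ℕ := bif co P m then 1 else 0

/-- the primes up to 89 -/
def smallList : List ℕ := [2, 3, 5, 7, 11, 13, 17, 19, 23, 29, 31, 37, 41, 43, 47, 53, 59, 61, 67, 71, 73, 79, 83, 89]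

def bigP : ℕ := 23768741896345550770650537601358310

def PP (i : ℕ) : ℕ := bif Nat.ble 7 i then bigP else 30030

theorem bigP_eq : bigP = smallList.prod := by decide +kernel

theorem coprime_of_list (L : List ℕ) (B p : ℕ) (hL : ∀ a ∈ L, 0 < a ∧ a ≤ B) (hp : p.Prime) (hB : B < p) :
    Nat.Coprime p L.prod := by
  rw [Nat.Prime.coprime_iff_not_dvd hp, (Nat.Prime.prime hp).dvd_prod_iff]
  rintro ⟨a, ha, hd⟩
  have h1 := hL a ha
  have h2 := Nat.le_of_dvd h1.1 hd
  omega

theorem co_of_mem {i p : ℕ} (hi : 4 ≤ i) (hp : p ∈ PB i (i + 1)) : co (PP i) p = true := by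
  rw [PB, mem_filter, mem_Ioc] at hp
  obtain ⟨⟨h1, -⟩, h2⟩ := hp
  rw [co, PP]
  rcases Nat.lt_or_ge i 7 with h | h
  · have h3 : Nat.ble 7 i = false := by
      rw [Bool.eq_false_iff, ne_eq, Nat.ble_eq]; omega
    rw [h3, cond_false]
    have h4 : Nat.Coprime p 30030 := by
      have := coprime_of_list [2, 3, 5, 7, 11, 13] 13 p (by decide) h2
        (lt_of_lt_of_le (by norm_num) (lt_of_le_of_lt (Nat.pow_le_pow_right (by norm_num) hi) h1).le)
      simpa using this
    rw [Nat.Coprime] at h4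
    rw [h4]; rfl
  · have h3 : Nat.ble 7 i = true := by rw [Nat.ble_eq]; exact h
    rw [h3, cond_true]
    have h4 : Nat.Coprime p bigP := by
      rw [bigP_eq]
      exact coprime_of_list smallList 89 p (by decide) h2
        (lt_of_lt_of_le (by norm_num) (lt_of_le_of_lt (Nat.pow_le_pow_right (by norm_num) h) h1).le)
    rw [Nat.Coprime] at h4
    rw [h4]; rfl

/-- the kernel check for one block -/
def chk (i : ℕ) : Bool :=
  Nat.ble (spS (fS (PP i)) i (2 ^ i)) (tbS i * 10 ^ 6) &&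
  Nat.ble (spP (fN (PP i)) i (2 ^ i) * 10 ^ 6) (tbV i * spP (fD (PP i)) i (2 ^ i)) &&
  Nat.ble (spS (fC (PP i)) i (2 ^ i)) (tbC i)

theorem chk_all : ∀ i ∈ List.range' 4 9, chk i = true := by decide +kernel

theorem chk_of {i : ℕ} (h4 : 4 ≤ i) (h13 : i < 13) : chk i = true := by
  apply chk_all
  rw [List.mem_range'_1]
  omega

theorem ioc_block (i : ℕ) : Ioc (2 ^ i) (2 ^ i + 2 ^ i) = Ioc (2 ^ i) (2 ^ (i + 1)) := by
  rw [pow_succ, mul_two]

theorem tab : Tab := by
  intro i h4 h13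
  have hc := chk_of h4 h13
  rw [chk, Bool.and_eq_true, Bool.and_eq_true, Nat.ble_eq, Nat.ble_eq, Nat.ble_eq,
    spS_eq, spP_eq, spP_eq, spS_eq, ioc_block] at hc
  obtain ⟨⟨hS, hV⟩, hC⟩ := hc
  have hpos : ∀ p ∈ PB i (i + 1), 16 < p := by
    intro p hp
    rw [PB, mem_filter, mem_Ioc] at hp
    exact lt_of_le_of_lt (Nat.pow_le_pow_right (n := 2) (by norm_num) h4) hp.1.1
  have hsub : PB i (i + 1) ⊆ Ioc (2 ^ i) (2 ^ (i + 1)) := filter_subset _ _
  refine ⟨?_, ?_, ?_⟩
  · have h1 : sm i (i + 1) ≤ ∑ m ∈ Ioc (2 ^ i) (2 ^ (i + 1)), (fS (PP i) m : ℝ) / 10 ^ 12 := by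
      rw [sm]
      refine le_trans (Finset.sum_le_sum (g := fun m => (fS (PP i) m : ℝ) / 10 ^ 12) fun p hp => ?_)
        (Finset.sum_le_sum_of_subset_of_nonneg hsub fun m _ _ => by positivity)
      have hp0 : (0 : ℝ) < p := by have := hpos p hp; positivity
      have hco := co_of_mem h4 hp
      simp only [fS, hco, cond_true]
      rw [div_le_div_iff₀ hp0 (by positivity), one_mul]
      have h5 : (10 : ℕ) ^ 12 < (10 ^ 12 / p + 1) * p := by
        have := Nat.lt_div_mul_add (a := 10 ^ 12) (b := p) (by have := hpos p hp; omega)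
        rw [add_mul, one_mul]; omega
      exact_mod_cast h5.le
    refine h1.trans ?_
    rw [← Finset.sum_div, div_le_div_iff₀ (by positivity) (by positivity)]
    have h6 : ((∑ m ∈ Ioc (2 ^ i) (2 ^ (i + 1)), fS (PP i) m : ℕ) : ℝ) ≤ ((tbS i * 10 ^ 6 : ℕ) : ℝ) := by
      exact_mod_cast hS
    push_cast at h6
    nlinarith
  · have hfN : ∀ m ∈ Ioc (2 ^ i) (2 ^ (i + 1)), (1 : ℝ) ≤ (fN (PP i) m : ℝ) / fD (PP i) m ∧
        (0 : ℝ) < fD (PP i) m := by
      intro m hm
      rw [mem_Ioc] at hm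
      have hm16 : 16 < m := lt_of_le_of_lt (Nat.pow_le_pow_right (n := 2) (by norm_num) h4) hm.1
      rw [fN, fD]
      cases co (PP i) m
      · simp
      · simp only [cond_true]
        have : (0 : ℝ) < ((m - 1 : ℕ) : ℝ) := by
          have : 0 < m - 1 := by omega
          exact_mod_cast this
        refine ⟨?_, this⟩
        rw [le_div_iff₀ this, one_mul]
        exact_mod_cast Nat.sub_le m 1
    have h1 : 1 / vp i (i + 1) ≤ ∏ m ∈ Ioc (2 ^ i) (2 ^ (i + 1)), ((fN (PP i) m : ℝ) / fD (PP i) m) := by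
      rw [vp, one_div, ← Finset.prod_inv_distrib]
      have h2 : ∏ p ∈ PB i (i + 1), (1 - (1 : ℝ) / p)⁻¹ = ∏ p ∈ PB i (i + 1), ((fN (PP i) p : ℝ) / fD (PP i) p) := by
        refine Finset.prod_congr rfl fun p hp => ?_
        have hco := co_of_mem h4 hp
        simp only [fN, fD, hco, cond_true]
        have hp16 := hpos p hp
        have hp0 : (0 : ℝ) < p := by positivity
        rw [Nat.cast_sub (by omega), Nat.cast_one]
        have hp1 : (0 : ℝ) < (p : ℝ) - 1 := by
          have : (16 : ℝ) < p := by exact_mod_cast hp16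
          linarith
        field_simp
      rw [h2]
      rw [← Finset.prod_sdiff hsub]
      refine le_mul_of_one_le_left (Finset.prod_nonneg fun m _ => by positivity) ?_
      refine Finset.prod_induction _ (fun x : ℝ => 1 ≤ x)
        (fun a b ha hb => one_le_mul_of_one_le_of_one_le ha hb) le_rfl fun m hm => ?_
      exact (hfN m (Finset.sdiff_subset hm)).1
    refine h1.trans ?_
    rw [Finset.prod_div_distrib, div_le_div_iff₀ (Finset.prod_pos fun m hm => (hfN m hm).2) (by positivity)]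
    exact_mod_cast hV
  · refine le_trans ?_ hC
    rw [Finset.card_eq_sum_ones]
    refine le_trans (Finset.sum_le_sum (g := fun m => fC (PP i) m) fun p hp => ?_)
      (Finset.sum_le_sum_of_subset hsub)
    rw [fC, co_of_mem h4 hp, cond_true]

end Pool.Agent.Helper15.SQ
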