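import Pool.Agent.Helper1.SQ.Defs
import Pool.Agent.Helper68.SQ.L

/-!
# SQ-K: the range `n < 28672`
-/

set_option autoImplicit false
open Finset

namespace Pool.Agent.Helper15.SQ

open Pool.Agent.Helper1.SQ

/-- one of `m+1, …, m+k` is coprime to `P` -/
def findj (P : ℕ) : ℕ → ℕ → Bool
  | _, 0 => false
  | m, k + 1 => bif Nat.beq (Nat.gcd (m + 1) P) 1 then true else findj P (m + 1) k

theorem findj_spec (P : ℕ) (k : ℕ) : ∀ m, findj P m k = true →
    ∃ j, 1 ≤ j ∧ j ≤ k ∧ Nat.gcd (m + j) P = 1 := by
  induction k with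
  | zero => intro m h; simp [findj] at h
  | succ k ih =>
    intro m h
    rw [findj] at h
    rcases hb : Nat.beq (Nat.gcd (m + 1) P) 1 with _ | _
    · rw [hb, cond_false] at h
      obtain ⟨j, h1, h2, h3⟩ := ih _ h
      exact ⟨j + 1, by omega, by omega, by rw [show m + (j + 1) = m + 1 + j by ring]; exact h3⟩
    · exact ⟨1, le_rfl, by omega, Nat.eq_of_beq_eq_true hb⟩

/-- number of `x < k` coprime to `n` -/
def tc (n : ℕ) : ℕ → ℕ
  | 0 => 0
  | k + 1 => tc n k + (bif Nat.beq (Nat.gcd n k) 1 then 1 else 0)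

theorem tc_eq (n k : ℕ) : tc n k = ((range k).filter n.Coprime).card := by
  induction k with
  | zero => simp [tc]
  | succ k ih =>
    rw [tc, ih, Finset.range_add_one, Finset.filter_insert]
    by_cases h : n.Coprime k
    · rw [if_pos h, Finset.card_insert_of_notMem (by simp)]
      have : Nat.beq (Nat.gcd n k) 1 = true := by rw [h]; rfl
      rw [this, cond_true]
    · rw [if_neg h]
      have : Nat.beq (Nat.gcd n k) 1 = false := by
        rw [Bool.eq_false_iff, ne_eq, Nat.beq_eq]; exact h
      rw [this, cond_false, add_zero]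

theorem tc_self (n : ℕ) : tc n n = Nat.totient n := by rw [tc_eq]; rfl

/-- `f` holds on `[a, a + 2^k)` -/
def allB (f : ℕ → Bool) : ℕ → ℕ → Bool
  | 0, a => f a
  | k + 1, a => allB f k a && allB f k (a + 2 ^ k)

theorem allB_spec (f : ℕ → Bool) (k : ℕ) : ∀ a, allB f k a = true → ∀ n, a ≤ n → n < a + 2 ^ k → f n = true := by
  induction k with
  | zero =>
    intro a h n h1 h2
    have : n = a := by simp at h2; omega
    rw [this]; exact h
  | succ k ih =>
    intro a h n h1 h2
    rw [allB, Bool.and_eq_true] at h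
    rcases Nat.lt_or_ge n (a + 2 ^ k) with h3 | h3
    · exact ih a h.1 n h1 h3
    · exact ih _ h.2 n h3 (by rw [pow_succ] at h2; omega)

/-- no prime factor below `q` and `m < q^4` leave at most three prime factors -/
theorem omega_le {m q P : ℕ} (hP : ∀ p, p < q → p.Prime → p ∣ P) (hc : Nat.gcd m P = 1) (hm0 : 0 < m)
    (hm : m < q ^ 4) : ArithmeticFunction.cardFactors m ≤ 3 := by
  by_contra hcon
  rw [not_le] at hcon
  have hlen : ArithmeticFunction.cardFactors m = m.primeFactorsList.length := rfl
  have hq : ∀ x ∈ m.primeFactorsList, q ≤ x := by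
    intro x hx
    by_contra hlt
    rw [not_le] at hlt
    have hxp := Nat.prime_of_mem_primeFactorsList hx
    have h1 : x ∣ Nat.gcd m P := Nat.dvd_gcd (Nat.dvd_of_mem_primeFactorsList hx) (hP x hlt hxp)
    rw [hc] at h1
    exact hxp.one_lt.ne' (Nat.dvd_one.mp h1)
  have h2 := List.pow_card_le_prod m.primeFactorsList q hq
  rw [Nat.prod_primeFactorsList hm0.ne'] at h2
  have hq0 : 0 < q := by
    rcases Nat.eq_zero_or_pos q with h | h
    · rw [h] at hm; simp at hm
    · exact h
  have h3 : q ^ 4 ≤ q ^ m.primeFactorsList.length := Nat.pow_le_pow_right hq0 (by omega)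
  omega

theorem fin {n q P k : ℕ} (hn : 0 < n) (hP : ∀ p, p < q → p.Prime → p ∣ P) (hq : n + 1 ≤ q ^ 2)
    (hf : findj P (n ^ 2) k = true) (hk : k ≤ Nat.totient n) :
    ∃ m : ℕ, n ^ 2 < m ∧ m ≤ n ^ 2 + Nat.totient n ∧ ArithmeticFunction.cardFactors m ≤ 3 := by
  obtain ⟨j, h1, h2, h3⟩ := findj_spec P k _ hf
  refine ⟨n ^ 2 + j, by omega, by omega, omega_le hP h3 (by omega) ?_⟩
  have h4 : Nat.totient n ≤ n := Nat.totient_le n
  have h5 : (n + 1) ^ 2 ≤ (q ^ 2) ^ 2 := Nat.pow_le_pow_left hq 2
  rw [← pow_mul] at h5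
  norm_num at h5
  nlinarith

def P19 : ℕ := 9699690
def P43 : ℕ := 13082761331670030
def P167 : ℕ := 962947420735983927056946215901134429196419130606213075415963491270

/-- the list of ranges for `n < 512`: `(upper end, q, P)` -/
def seg (n : ℕ) : ℕ × ℕ :=
  bif Nat.blt n 4 then (2, 1) else bif Nat.blt n 9 then (3, 2) else bif Nat.blt n 25 then (5, 6) else
  bif Nat.blt n 49 then (7, 30) else bif Nat.blt n 121 then (11, 210) else
  bif Nat.blt n 289 then (17, 30030) else (23, P19)

def chkS (n : ℕ) : Bool :=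
  Nat.beq n 0 || (Nat.ble (n + 1) ((seg n).1 ^ 2) && findj (seg n).2 (n ^ 2) (tc n n))

theorem hP2 : ∀ p, p < 2 → p.Prime → p ∣ 1 := by decide
theorem hP3 : ∀ p, p < 3 → p.Prime → p ∣ 2 := by decide
theorem hP5 : ∀ p, p < 5 → p.Prime → p ∣ 6 := by decide
theorem hP7 : ∀ p, p < 7 → p.Prime → p ∣ 30 := by decide
theorem hP11 : ∀ p, p < 11 → p.Prime → p ∣ 210 := by decide +kernel
theorem hP17 : ∀ p, p < 17 → p.Prime → p ∣ 30030 := by decide +kernel
theorem hP23 : ∀ p, p < 23 → p.Prime → p ∣ P19 := by decide +kernel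
theorem hP47 : ∀ p, p < 47 → p.Prime → p ∣ P43 := by decide +kernel
theorem hP173 : ∀ p, p < 173 → p.Prime → p ∣ P167 := by decide +kernel

theorem seg_spec (n : ℕ) : ∀ p, p < (seg n).1 → p.Prime → p ∣ (seg n).2 := by
  rw [seg]
  cases Nat.blt n 4
  · rw [cond_false]
    cases Nat.blt n 9
    · rw [cond_false]
      cases Nat.blt n 25
      · rw [cond_false]
        cases Nat.blt n 49
        · rw [cond_false]
          cases Nat.blt n 121
          · rw [cond_false]
            cases Nat.blt n 289
            · exact hP23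
            · exact hP17
          · exact hP11
        · exact hP7
      · exact hP5
    · exact hP3
  · exact hP2

theorem chkS_all : allB chkS 9 0 = true := by decide +kernel

def chkM (n : ℕ) : Bool := findj P43 (n ^ 2) 64
def chkL (n : ℕ) : Bool := findj P167 (n ^ 2) 256

theorem chkM_1 : allB chkM 10 512 = true := by decide +kernel
theorem chkM_2 : allB chkM 9 1536 = true := by decide +kernel
theorem chkL_1 : allB chkL 11 2048 = true := by decide +kernel
theorem chkL_2 : allB chkL 12 4096 = true := by decide +kernel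
theorem chkL_3 : allB chkL 12 8192 = true := by decide +kernel
theorem chkL_4 : allB chkL 12 12288 = true := by decide +kernel
theorem chkL_5 : allB chkL 12 16384 = true := by decide +kernel
theorem chkL_6 : allB chkL 12 20480 = true := by decide +kernel
theorem chkL_7 : allB chkL 12 24576 = true := by decide +kernel

theorem kr : KR := by
  intro n hn h28
  rcases Nat.lt_or_ge n 512 with h | h
  · have hc := allB_spec chkS 9 0 chkS_all n (by omega) (by norm_num; omega)
    rw [chkS, Bool.or_eq_true, Bool.and_eq_true, Nat.beq_eq, Nat.ble_eq, tc_self] at hc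
    rcases hc with hc | hc
    · omega
    · exact fin hn (seg_spec n) hc.1 hc.2 le_rfl
  have hT : n ≤ 8 * Nat.totient n :=
    Pool.Agent.Helper1.SQ.totL 8 28672 n hn (by decide) (lt_of_le_of_lt (Nat.totient_le n) h28)
  rcases Nat.lt_or_ge n 2048 with h1 | h1
  · have hc : chkM n = true := by
      rcases Nat.lt_or_ge n 1536 with h2 | h2
      · exact allB_spec chkM 10 512 chkM_1 n h (by norm_num; omega)
      · exact allB_spec chkM 9 1536 chkM_2 n h2 (by norm_num; omega)
    exact fin (k := 64) hn hP47 (by norm_num; omega) hc (by omega)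
  · have hc : chkL n = true := by
      rcases Nat.lt_or_ge n 4096 with h2 | h2
      · exact allB_spec chkL 11 2048 chkL_1 n h1 (by norm_num; omega)
      rcases Nat.lt_or_ge n 8192 with h3 | h3
      · exact allB_spec chkL 12 4096 chkL_2 n h2 (by norm_num; omega)
      rcases Nat.lt_or_ge n 12288 with h4 | h4
      · exact allB_spec chkL 12 8192 chkL_3 n h3 (by norm_num; omega)
      rcases Nat.lt_or_ge n 16384 with h5 | h5
      · exact allB_spec chkL 12 12288 chkL_4 n h4 (by norm_num; omega)
      rcases Nat.lt_or_ge n 20480 with h6 | h6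
      · exact allB_spec chkL 12 16384 chkL_5 n h5 (by norm_num; omega)
      rcases Nat.lt_or_ge n 24576 with h7 | h7
      · exact allB_spec chkL 12 20480 chkL_6 n h6 (by norm_num; omega)
      · exact allB_spec chkL 12 24576 chkL_7 n h7 (by norm_num; omega)
    exact fin (k := 256) hn hP173 (by norm_num; omega) hc (by omega)

end Pool.Agent.Helper15.SQ
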